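import Pool.Agent.helper89.PU.Spec1

/-!
# Project PU (MP_2e0e07_nt): row BCL, base change of `Lvl`
-/

set_option autoImplicit false

namespace Pool.Agent.PV

open Matrix Polynomial Pool.Agent.GO Pool.Agent.AR Pool.Agent.RG Pool.Agent.HZ Pool.Agent.DS
  Pool.Agent.AX Pool.Agent.UM Pool.Agent.PU MeasureTheory NumberField

theorem BCL_apply {Γ F K : Type} [Group Γ] [NormedField F] [NormedField K] (j : F →+* K)
    (R : Γ →* Matrix (Fin 2) (Fin 2) F) (g : Γ) (a b : Fin 2) :
    bc j R g a b = j (R g a b) := rfl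

theorem BCL_map {Γ F K : Type} [Group Γ] [NormedField F] [NormedField K] (j : F →+* K)
    (R : Γ →* Matrix (Fin 2) (Fin 2) F) (g : Γ) :
    bc j R g = (R g).map j := rfl

theorem BCL_nu {Γ F K : Type} [Group Γ] [NormedField F] [NormedField K] (j : F →+* K)
    (hj : ∀ x, ‖j x‖ = ‖x‖) (R : Γ →* Matrix (Fin 2) (Fin 2) F) (g : Γ) :
    nu (bc j R g) = nu (R g) := by
  unfold nu
  rw [BCL_apply, BCL_apply, BCL_apply, BCL_apply, hj, hj, ← map_sub, hj]

theorem BCL_d3 {Γ F K : Type} [Group Γ] [NormedField F] [NormedField K] (j : F →+* K)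
    (R : Γ →* Matrix (Fin 2) (Fin 2) F) (a b c : Γ) :
    d3 (bc j R a) (bc j R b) (bc j R c) = j (d3 (R a) (R b) (R c)) := by
  unfold d3
  rw [Matrix.det_fin_three, Matrix.det_fin_three]
  simp only [BCL_apply, Matrix.of_apply, Matrix.cons_val', Matrix.cons_val_zero,
    Matrix.cons_val_one, Matrix.cons_val, map_add, map_sub, map_mul]

theorem BCL : BCL_stmt := by
  intro Γ F K _ _ _ _ j hj R G₁ κ h
  have hjc : Continuous j := (AddMonoidHomClass.isometry_of_norm j hj).continuous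
  refine ⟨⟨?_, ?_, h.closed, h.normal, h.pos, h.le, ?_, ?_, ?_⟩, BCL_nu j hj R, ?_, ?_⟩
  · show Continuous fun g => (R g).map j
    exact h.cont.matrix_map hjc
  · intro g a b
    rw [BCL_apply, hj]
    exact h.int g a b
  · intro g hg
    rw [BCL_nu j hj R, ← map_ofNat j 2, hj]
    exact h.small g hg
  · intro g hg k
    rw [BCL_nu j hj R, BCL_nu j hj R, ← map_natCast j k, hj]
    exact h.pow g hg k
  · intro g hg
    obtain ⟨a, b, c, habc⟩ := h.spn g hg
    refine ⟨a, b, c, ?_⟩
    rw [BCL_nu j hj R, BCL_d3, hj]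
    exact habc
  · intro g
    rw [Matrix.trace_fin_two, Matrix.trace_fin_two, BCL_apply, BCL_apply, map_add]
  · intro g
    rw [Matrix.det_fin_two, Matrix.det_fin_two, BCL_apply, BCL_apply, BCL_apply, BCL_apply,
      map_sub, map_mul, map_mul]

end Pool.Agent.PV
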